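import Mathlib

namespace Pool.Agent.H11W
open MeasureTheory Filter Topology

/-- `b n = 1 + ∫ t^n dμ - ∫ t^n dν` with finite measures on `[0,1]`, `1 + |μ| + |ν| ≤ K` -/
def Rep (K : ℝ) (b : ℕ → ℝ) : Prop :=
  ∃ μ ν : Measure ℝ, IsFiniteMeasure μ ∧ IsFiniteMeasure ν ∧ μ (Set.Icc 0 1)ᶜ = 0 ∧
    ν (Set.Icc 0 1)ᶜ = 0 ∧ 1 + μ.real Set.univ + ν.real Set.univ ≤ K ∧
    ∀ n : ℕ, b n = 1 + (∫ t, t ^ n ∂μ) - ∫ t, t ^ n ∂ν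

noncomputable def aseq (m k : ℕ) : ℝ :=
  ((m * k).factorial : ℝ) * ((2 * k).factorial : ℝ) /
    ((((m + 1) * k).factorial : ℝ) * (k.factorial : ℝ)) *
    (((m : ℝ) + 1) ^ (m + 1) / (4 * (m : ℝ) ^ m)) ^ k

end Pool.Agent.H11W
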