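import Pool.Agent.H11W.Defs

set_option autoImplicit false

namespace Pool.Agent.H11W
open MeasureTheory Filter Topology

theorem Rep_one : Rep 1 (fun _ => 1) := by
  refine ⟨0, 0, inferInstance, inferInstance, by simp, by simp, by simp, by simp⟩

/-- multiplicative convolution -/
noncomputable def mc (μ ν : Measure ℝ) : Measure ℝ := Measure.map (fun x : ℝ × ℝ => x.1 * x.2) (μ.prod ν)

theorem mc_fin (μ ν : Measure ℝ) [IsFiniteMeasure μ] [IsFiniteMeasure ν] : IsFiniteMeasure (mc μ ν) := by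
  unfold mc; infer_instance

theorem mc_mass (μ ν : Measure ℝ) [IsFiniteMeasure μ] [IsFiniteMeasure ν] :
    (mc μ ν).real Set.univ = μ.real Set.univ * ν.real Set.univ := by
  unfold mc
  rw [Measure.real, Measure.map_apply (by fun_prop) MeasurableSet.univ, Set.preimage_univ,
    ← Set.univ_prod_univ, Measure.prod_prod, ENNReal.toReal_mul]
  rfl

theorem mc_supp (μ ν : Measure ℝ) [IsFiniteMeasure μ] [IsFiniteMeasure ν]
    (hμ : μ (Set.Icc 0 1)ᶜ = 0) (hν : ν (Set.Icc 0 1)ᶜ = 0) : (mc μ ν) (Set.Icc 0 1)ᶜ = 0 := by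
  unfold mc
  rw [Measure.map_apply (by fun_prop) measurableSet_Icc.compl]
  have hsub : (fun x : ℝ × ℝ => x.1 * x.2) ⁻¹' (Set.Icc 0 1)ᶜ ⊆
      ((Set.Icc 0 1)ᶜ ×ˢ Set.univ) ∪ (Set.univ ×ˢ (Set.Icc 0 1)ᶜ) := by
    rintro ⟨x, y⟩ h
    by_contra hcon
    simp only [Set.mem_union, Set.mem_prod, Set.mem_compl_iff, Set.mem_univ, and_true, true_and, not_or, not_not] at hcon
    apply h
    obtain ⟨⟨h1, h2⟩, h3, h4⟩ := hcon
    exact ⟨mul_nonneg h1 h3, mul_le_one₀ h2 h3 h4⟩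
  refine measure_mono_null hsub ?_
  rw [measure_union_null_iff]
  constructor
  · rw [Measure.prod_prod, hμ, zero_mul]
  · rw [Measure.prod_prod, hν, mul_zero]

theorem int_pow {μ : Measure ℝ} [IsFiniteMeasure μ] (hμ : μ (Set.Icc 0 1)ᶜ = 0) (n : ℕ) :
    Integrable (fun t : ℝ => t ^ n) μ := by
  refine Integrable.of_bound (by fun_prop) 1 ?_
  have : ∀ᵐ t ∂μ, t ∈ Set.Icc (0:ℝ) 1 := hμ
  filter_upwards [this] with t ht
  rw [Real.norm_eq_abs, abs_pow, abs_of_nonneg ht.1]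
  exact pow_le_one₀ ht.1 ht.2

theorem mc_int (μ ν : Measure ℝ) [IsFiniteMeasure μ] [IsFiniteMeasure ν]
    (n : ℕ) : ∫ t, t ^ n ∂(mc μ ν) = (∫ t, t ^ n ∂μ) * ∫ t, t ^ n ∂ν := by
  unfold mc
  rw [integral_map (by fun_prop) (by fun_prop)]
  simp only [mul_pow]
  exact integral_prod_mul (fun t : ℝ => t ^ n) (fun t : ℝ => t ^ n)

/-- the density measure -/
noncomputable def rho (p : ℝ) : Measure ℝ :=
  (volume.restrict (Set.Ioc (0:ℝ) 1)).withDensity (fun t => ENNReal.ofReal (p * t ^ (p - 1)))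

theorem rho_props {p : ℝ} (hp : 0 < p) : IsFiniteMeasure (rho p) ∧ (rho p) (Set.Icc 0 1)ᶜ = 0 ∧
    ∀ n : ℕ, ∫ t, t ^ n ∂(rho p) = p / (n + p) := by
  have hint : ∀ n : ℕ, IntervalIntegrable (fun t : ℝ => t ^ ((n : ℝ) + p - 1)) volume 0 1 := by
    intro n
    apply intervalIntegral.intervalIntegrable_rpow'
    have : (0:ℝ) ≤ n := Nat.cast_nonneg n
    linarith
  have hmeas : Measurable (fun t : ℝ => p * t ^ (p - 1)) := by fun_prop
  have hval : ∀ n : ℕ, ∫ t in Set.Ioc (0:ℝ) 1, t ^ ((n : ℝ) + p - 1) = 1 / (n + p) := by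
    intro n
    have hn : (0:ℝ) ≤ n := Nat.cast_nonneg n
    rw [← intervalIntegral.integral_of_le zero_le_one, integral_rpow (Or.inl (by linarith))]
    rw [Real.one_rpow, Real.zero_rpow (by linarith : (n:ℝ) + p - 1 + 1 ≠ 0)]
    congr 1 <;> ring
  have hfin : IsFiniteMeasure (rho p) := by
    unfold rho
    apply isFiniteMeasure_withDensity_ofReal
    have h0 := (hint 0).1
    have : (fun t : ℝ => p * t ^ (p - 1)) = fun t : ℝ => p * t ^ (((0:ℕ):ℝ) + p - 1) := by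
      funext t; congr 2; simp
    have h1 : Integrable (fun t : ℝ => p * t ^ (p - 1)) (volume.restrict (Set.Ioc (0:ℝ) 1)) := by
      rw [this]; exact h0.const_mul p
    exact h1.2
  refine ⟨hfin, ?_, ?_⟩
  · unfold rho
    apply (withDensity_absolutelyContinuous _ _)
    rw [Measure.restrict_apply measurableSet_Icc.compl]
    have : (Set.Icc (0:ℝ) 1)ᶜ ∩ Set.Ioc 0 1 = ∅ := by
      ext t
      simp only [Set.mem_inter_iff, Set.mem_compl_iff, Set.mem_Icc, Set.mem_Ioc, Set.mem_empty_iff_false, iff_false, not_and]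
      intro h h1 h2
      exact h h1.le h2
    rw [this]; simp
  · intro n
    have hn : (0:ℝ) ≤ n := Nat.cast_nonneg n
    unfold rho
    rw [integral_withDensity_eq_integral_toReal_smul (by fun_prop) (by simp)]
    have h1 : ∫ t in Set.Ioc (0:ℝ) 1, (ENNReal.ofReal (p * t ^ (p - 1))).toReal • t ^ n =
        ∫ t in Set.Ioc (0:ℝ) 1, p * t ^ ((n : ℝ) + p - 1) := by
      apply setIntegral_congr_fun measurableSet_Ioc
      intro t ht
      have ht0 : 0 < t := ht.1
      simp only [smul_eq_mul]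
      rw [ENNReal.toReal_ofReal (by positivity), mul_assoc, ← Real.rpow_natCast, ← Real.rpow_add ht0]
      congr 2; ring
    rw [h1, integral_const_mul, hval n]
    ring

theorem Rep_step {K : ℝ} {b : ℕ → ℝ} (h : Rep K b) {δ p q : ℝ} (hδ : 0 ≤ δ) (hp : 0 < p) (hq : 0 < q) :
    Rep (K * (1 + δ)) (fun n => b n * (1 - δ * (p * q / ((n + p) * (n + q))))) := by
  obtain ⟨μ, ν, hμf, hνf, hμ, hν, hK, hb⟩ := h
  obtain ⟨f1, s1, i1⟩ := rho_props hp
  obtain ⟨f2, s2, i2⟩ := rho_props hq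
  have hψf := mc_fin (rho p) (rho q)
  have hψs := mc_supp (rho p) (rho q) s1 s2
  have hψi := mc_int (rho p) (rho q)
  have hψm := mc_mass (rho p) (rho q)
  obtain ⟨ψ, hψ⟩ : ∃ ψ, ψ = mc (rho p) (rho q) := ⟨_, rfl⟩
  rw [← hψ] at hψf hψs hψi hψm
  have hm1 : ∀ {r : ℝ}, 0 < r → (rho r).real Set.univ = 1 := by
    intro r hr
    obtain ⟨g1, _, g3⟩ := rho_props hr
    have := g3 0
    simp only [pow_zero, Nat.cast_zero, zero_add] at this
    rw [integral_const, smul_eq_mul, mul_one, div_self hr.ne'] at this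
    exact this
  rw [hm1 hp, hm1 hq, mul_one] at hψm
  have hψint : ∀ n : ℕ, ∫ t, t ^ n ∂ψ = p * q / ((n + p) * (n + q)) := by
    intro n
    rw [hψi n, i1, i2, div_mul_div_comm]
  have g1 := mc_fin μ ψ
  have g2 := mc_fin ν ψ
  obtain ⟨δ', hδ'⟩ : ∃ δ' : NNReal, (δ' : ℝ) = δ := ⟨⟨δ, hδ⟩, rfl⟩
  have hsm : ∀ (m : Measure ℝ), (δ' • m).real Set.univ = δ * m.real Set.univ := by
    intro m
    rw [← hδ']
    simp [Measure.real, NNReal.smul_def]
  have hsi : ∀ (m : Measure ℝ) (n : ℕ), ∫ t, t ^ n ∂(δ' • m) = δ * ∫ t, t ^ n ∂m := by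
    intro m n
    rw [integral_smul_nnreal_measure, NNReal.smul_def, hδ', smul_eq_mul]
  have hnull : ∀ (m : Measure ℝ), m (Set.Icc 0 1)ᶜ = 0 → (δ' • m) (Set.Icc 0 1)ᶜ = 0 := by
    intro m hm
    rw [Measure.smul_apply, hm, smul_zero]
  refine ⟨μ + δ' • mc ν ψ, ν + δ' • ψ + δ' • mc μ ψ, inferInstance, inferInstance, ?_, ?_, ?_, ?_⟩
  · rw [Measure.add_apply, hμ, hnull _ (mc_supp ν ψ hν hψs), add_zero]
  · rw [Measure.add_apply, Measure.add_apply, hν, hnull _ hψs, hnull _ (mc_supp μ ψ hμ hψs), add_zero, add_zero]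
  · rw [measureReal_add_apply, measureReal_add_apply, measureReal_add_apply, hsm, hsm, hsm, mc_mass, mc_mass, hψm]
    have e : 1 + (μ.real Set.univ + δ * (ν.real Set.univ * 1)) + (ν.real Set.univ + δ * 1 + δ * (μ.real Set.univ * 1)) =
        (1 + μ.real Set.univ + ν.real Set.univ) * (1 + δ) := by ring
    rw [e]
    exact mul_le_mul_of_nonneg_right hK (by linarith)
  · intro n
    have j1 : Integrable (fun t : ℝ => t ^ n) μ := int_pow hμ n
    have j2 : Integrable (fun t : ℝ => t ^ n) (δ' • mc ν ψ) := int_pow (hnull _ (mc_supp ν ψ hν hψs)) n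
    have j3 : Integrable (fun t : ℝ => t ^ n) ν := int_pow hν n
    have j4 : Integrable (fun t : ℝ => t ^ n) (δ' • ψ) := int_pow (hnull _ hψs) n
    have j5 : Integrable (fun t : ℝ => t ^ n) (δ' • mc μ ψ) := int_pow (hnull _ (mc_supp μ ψ hμ hψs)) n
    rw [integral_add_measure j1 j2, integral_add_measure (j3.add_measure j4) j5, integral_add_measure j3 j4,
      hsi, hsi, hsi, mc_int, mc_int, hψint]
    beta_reduce
    rw [hb n]
    ring

end Pool.Agent.H11W
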