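import Mathlib

set_option autoImplicit false

namespace Pool.Agent.H11W

theorem im_formula (z w : ℂ) : (Complex.sin z * (starRingEnd ℂ) (Complex.cos w)).im =
    Real.sin z.re * Real.cosh z.im * (Real.sin w.re * Real.sinh w.im) +
      Real.cos z.re * Real.sinh z.im * (Real.cos w.re * Real.cosh w.im) := by
  have h1 : Complex.sin z = ((Real.sin z.re * Real.cosh z.im : ℝ) : ℂ) +
      ((Real.cos z.re * Real.sinh z.im : ℝ) : ℂ) * Complex.I := by
    rw [Complex.sin_eq]; push_cast; ring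
  have h2 : Complex.cos w = ((Real.cos w.re * Real.cosh w.im : ℝ) : ℂ) -
      ((Real.sin w.re * Real.sinh w.im : ℝ) : ℂ) * Complex.I := by
    rw [Complex.cos_eq]; push_cast; ring
  rw [h1, h2, Complex.mul_im, Complex.conj_re, Complex.conj_im]
  simp only [Complex.add_re, Complex.add_im, Complex.sub_re, Complex.sub_im, Complex.ofReal_re,
    Complex.ofReal_im, Complex.mul_re, Complex.mul_im, Complex.I_re, Complex.I_im]
  ring

theorem q_bound (ζ : ℂ) (hζ : 0 < ζ.im) (a b : ℝ) (ha : 0 ≤ a) (ha1 : a ≤ 1) (hb : 0 ≤ b)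
    (hb1 : b ≤ 1) :
    |(Complex.sin (a * ζ) * (starRingEnd ℂ) (Complex.cos (b * ζ))).im| ≤
      Real.sinh (2 * ζ.im) / 2 := by
  rw [im_formula, Real.sinh_two_mul]
  have e1 : ((a : ℂ) * ζ).im = a * ζ.im := by simp
  have e2 : ((b : ℂ) * ζ).im = b * ζ.im := by simp
  rw [e1, e2]
  set y := ζ.im with hy
  set s := Real.sin ((a : ℂ) * ζ).re
  set c := Real.cos ((a : ℂ) * ζ).re
  set s' := Real.sin ((b : ℂ) * ζ).re
  set c' := Real.cos ((b : ℂ) * ζ).re
  have hay : 0 ≤ a * y := mul_nonneg ha hζ.le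
  have hby : 0 ≤ b * y := mul_nonneg hb hζ.le
  have hay1 : a * y ≤ y := by nlinarith
  have hby1 : b * y ≤ y := by nlinarith
  have S1 : Real.sinh (a * y) ≤ Real.sinh y := Real.sinh_le_sinh.2 hay1
  have S2 : Real.sinh (b * y) ≤ Real.sinh y := Real.sinh_le_sinh.2 hby1
  have C1 : Real.cosh (a * y) ≤ Real.cosh y := by
    rw [Real.cosh_le_cosh, abs_of_nonneg hay, abs_of_nonneg hζ.le]; exact hay1
  have C2 : Real.cosh (b * y) ≤ Real.cosh y := by
    rw [Real.cosh_le_cosh, abs_of_nonneg hby, abs_of_nonneg hζ.le]; exact hby1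
  have S0 : 0 ≤ Real.sinh (a * y) := Real.sinh_nonneg_iff.2 hay
  have S0' : 0 ≤ Real.sinh (b * y) := Real.sinh_nonneg_iff.2 hby
  have C0 : 0 < Real.cosh (a * y) := Real.cosh_pos _
  have C0' : 0 < Real.cosh (b * y) := Real.cosh_pos _
  have hCS : Real.cosh (a * y) * Real.sinh (b * y) ≤ Real.sinh y * Real.cosh y := by
    rw [mul_comm (Real.sinh y)]
    exact mul_le_mul C1 S2 S0' (Real.cosh_pos _).le
  have hSC : Real.sinh (a * y) * Real.cosh (b * y) ≤ Real.sinh y * Real.cosh y :=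
    mul_le_mul S1 C2 C0'.le (S0.trans S1)
  have h1 : s ^ 2 + c ^ 2 = 1 := Real.sin_sq_add_cos_sq _
  have h2 : s' ^ 2 + c' ^ 2 = 1 := Real.sin_sq_add_cos_sq _
  have hsc : |s * s'| + |c * c'| ≤ 1 := by
    rw [abs_mul, abs_mul]
    nlinarith [sq_nonneg (|s| - |s'|), sq_nonneg (|c| - |c'|), sq_abs s, sq_abs s', sq_abs c,
      sq_abs c']
  have hT : s * Real.cosh (a * y) * (s' * Real.sinh (b * y)) +
      c * Real.sinh (a * y) * (c' * Real.cosh (b * y)) =
      (s * s') * (Real.cosh (a * y) * Real.sinh (b * y)) +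
      (c * c') * (Real.sinh (a * y) * Real.cosh (b * y)) := by ring
  rw [hT]
  have hP : 0 ≤ Real.sinh y * Real.cosh y :=
    mul_nonneg (S0.trans S1) (Real.cosh_pos _).le
  calc |(s * s') * (Real.cosh (a * y) * Real.sinh (b * y)) +
      (c * c') * (Real.sinh (a * y) * Real.cosh (b * y))|
      ≤ |(s * s') * (Real.cosh (a * y) * Real.sinh (b * y))| +
        |(c * c') * (Real.sinh (a * y) * Real.cosh (b * y))| := abs_add_le _ _
    _ = |s * s'| * (Real.cosh (a * y) * Real.sinh (b * y)) +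
        |c * c'| * (Real.sinh (a * y) * Real.cosh (b * y)) := by
        rw [abs_mul (s * s'), abs_mul (c * c'), abs_of_nonneg (mul_nonneg C0.le S0'),
          abs_of_nonneg (mul_nonneg S0 C0'.le)]
    _ ≤ |s * s'| * (Real.sinh y * Real.cosh y) + |c * c'| * (Real.sinh y * Real.cosh y) :=
        add_le_add (mul_le_mul_of_nonneg_left hCS (abs_nonneg _))
          (mul_le_mul_of_nonneg_left hSC (abs_nonneg _))
    _ = (|s * s'| + |c * c'|) * (Real.sinh y * Real.cosh y) := by ring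
    _ ≤ 1 * (Real.sinh y * Real.cosh y) := mul_le_mul_of_nonneg_right hsc hP
    _ = 2 * Real.sinh y * Real.cosh y / 2 := by ring

theorem q_one (ζ : ℂ) : (Complex.sin ζ * (starRingEnd ℂ) (Complex.cos ζ)).im =
    Real.sinh (2 * ζ.im) / 2 := by
  rw [im_formula, Real.sinh_two_mul]
  have h1 := Real.sin_sq_add_cos_sq ζ.re
  linear_combination (Real.sinh ζ.im * Real.cosh ζ.im) * h1

end Pool.Agent.H11W
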