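import Pool.Agent.H11W.Defs
import Pool.Agent.H11W.Q1

set_option autoImplicit false

namespace Pool.Agent.H11W
open MeasureTheory Filter Topology

lemma ae_Icc (μ : Measure ℝ) (h : μ (Set.Icc 0 1)ᶜ = 0) : ∀ᵐ t ∂μ, t ∈ Set.Icc (0:ℝ) 1 := by
  rw [ae_iff]
  exact h

lemma int_of_cont (μ : Measure ℝ) [IsFiniteMeasure μ] (h : μ (Set.Icc 0 1)ᶜ = 0) (f : ℝ → ℂ)
    (hf : Continuous f) : Integrable f μ := by
  obtain ⟨C, hC⟩ := (isCompact_Icc (a := (0:ℝ)) (b := 1)).exists_bound_of_continuousOn hf.continuousOn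
  refine Integrable.of_bound hf.aestronglyMeasurable C ?_
  filter_upwards [ae_Icc μ h] with t ht using hC t ht

lemma cont_cos (ζ : ℂ) : Continuous (fun t : ℝ => Complex.cos (t * ζ)) := by fun_prop
lemma cont_sin (ζ : ℂ) : Continuous (fun t : ℝ => Complex.sin (t * ζ)) := by fun_prop

/-- pairing bound -/
lemma pair_bound (ζ : ℂ) (hζ : 0 < ζ.im) (μ ν : Measure ℝ) [IsFiniteMeasure μ] [IsFiniteMeasure ν]
    (hμ : μ (Set.Icc 0 1)ᶜ = 0) (hν : ν (Set.Icc 0 1)ᶜ = 0) :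
    |((∫ t, Complex.sin (t * ζ) ∂μ) * (starRingEnd ℂ) (∫ t, Complex.cos (t * ζ) ∂ν)).im| ≤
      Real.sinh (2 * ζ.im) / 2 * μ.real Set.univ * ν.real Set.univ := by
  have h1 : ∀ b ∈ Set.Icc (0:ℝ) 1,
      |((∫ t, Complex.sin (t * ζ) ∂μ) * (starRingEnd ℂ) (Complex.cos (b * ζ))).im| ≤
        Real.sinh (2 * ζ.im) / 2 * μ.real Set.univ := by
    intro b hb
    have h2 : (∫ t, Complex.sin (t * ζ) ∂μ) * (starRingEnd ℂ) (Complex.cos (b * ζ)) =
        ∫ t, Complex.sin (t * ζ) * (starRingEnd ℂ) (Complex.cos (b * ζ)) ∂μ :=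
      (integral_mul_const _ _).symm
    have hint : Integrable (fun t : ℝ => Complex.sin (t * ζ) * (starRingEnd ℂ) (Complex.cos (b * ζ))) μ :=
      int_of_cont μ hμ _ (by fun_prop)
    have h3 : (∫ t, Complex.sin (t * ζ) * (starRingEnd ℂ) (Complex.cos (b * ζ)) ∂μ).im =
        ∫ t, (Complex.sin (t * ζ) * (starRingEnd ℂ) (Complex.cos (b * ζ))).im ∂μ :=
      (integral_im hint).symm
    rw [h2, h3, ← Real.norm_eq_abs]
    apply norm_integral_le_of_norm_le_const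
    filter_upwards [ae_Icc μ hμ] with t ht
    rw [Real.norm_eq_abs]
    exact q_bound ζ hζ t b ht.1 ht.2 hb.1 hb.2
  set S := ∫ t, Complex.sin (t * ζ) ∂μ with hS
  have h2 : S * (starRingEnd ℂ) (∫ t, Complex.cos (t * ζ) ∂ν) =
      ∫ t, S * (starRingEnd ℂ) (Complex.cos (t * ζ)) ∂ν := by
    rw [← integral_conj, ← integral_const_mul]
  have hint : Integrable (fun t : ℝ => S * (starRingEnd ℂ) (Complex.cos (t * ζ))) ν :=
    int_of_cont ν hν _ (by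
      have := cont_cos ζ
      exact continuous_const.mul (Complex.continuous_conj.comp this))
  have h3 : (∫ t, S * (starRingEnd ℂ) (Complex.cos (t * ζ)) ∂ν).im =
      ∫ t, (S * (starRingEnd ℂ) (Complex.cos (t * ζ))).im ∂ν := (integral_im hint).symm
  rw [h2, h3, ← Real.norm_eq_abs]
  apply norm_integral_le_of_norm_le_const
  filter_upwards [ae_Icc ν hν] with t ht
  rw [Real.norm_eq_abs]
  exact h1 t ht

lemma hasSum_int (ζ : ℂ) (μ : Measure ℝ) [IsFiniteMeasure μ] (hμ : μ (Set.Icc 0 1)ᶜ = 0) :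
    HasSum (fun k : ℕ => (((∫ t, t ^ (2 * k) ∂μ : ℝ)) : ℂ) * ((-1) ^ k * ζ ^ (2 * k) / ((2 * k).factorial : ℂ)))
      (∫ t, Complex.cos (t * ζ) ∂μ) := by
  have hc := Complex.hasSum_cos ζ
  have hcs : Summable (fun k : ℕ => ‖((-1) ^ k * ζ ^ (2 * k) / ((2 * k).factorial : ℂ))‖) := hc.summable.norm
  have key := hasSum_integral_of_dominated_convergence (μ := μ)
    (F := fun (k : ℕ) (t : ℝ) => (t : ℂ) ^ (2 * k) * ((-1) ^ k * ζ ^ (2 * k) / ((2 * k).factorial : ℂ)))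
    (f := fun t : ℝ => Complex.cos (t * ζ))
    (fun k _ => ‖((-1) ^ k * ζ ^ (2 * k) / ((2 * k).factorial : ℂ))‖) ?_ ?_ ?_ ?_ ?_
  · have e1 : (fun k : ℕ => (((∫ t, t ^ (2 * k) ∂μ : ℝ)) : ℂ) * ((-1) ^ k * ζ ^ (2 * k) / ((2 * k).factorial : ℂ))) =
        fun k : ℕ => ∫ t : ℝ, (t : ℂ) ^ (2 * k) * ((-1) ^ k * ζ ^ (2 * k) / ((2 * k).factorial : ℂ)) ∂μ := by
      funext k
      rw [integral_mul_const]
      congr 1
      have e2 : ∫ t : ℝ, (t : ℂ) ^ (2 * k) ∂μ = ∫ t : ℝ, ((t ^ (2 * k) : ℝ) : ℂ) ∂μ := by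
        apply integral_congr_ae
        refine ae_of_all _ fun t => ?_
        push_cast
        rfl
      rw [e2]
      exact (integral_ofReal (f := fun t : ℝ => t ^ (2 * k))).symm
    rw [e1]
    exact key
  · intro k
    apply Continuous.aestronglyMeasurable
    fun_prop
  · intro k
    filter_upwards [ae_Icc μ hμ] with t ht
    rw [norm_mul, norm_pow, Complex.norm_real, Real.norm_eq_abs, abs_of_nonneg ht.1]
    exact mul_le_of_le_one_left (norm_nonneg _) (pow_le_one₀ ht.1 ht.2)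
  · exact ae_of_all _ fun _ => hcs
  · exact integrable_const _
  · refine ae_of_all _ fun t => ?_
    have h1 := Complex.hasSum_cos ((t : ℂ) * ζ)
    have e3 : (fun k : ℕ => (t : ℂ) ^ (2 * k) * ((-1) ^ k * ζ ^ (2 * k) / ((2 * k).factorial : ℂ))) =
        fun k : ℕ => (-1) ^ k * ((t : ℂ) * ζ) ^ (2 * k) / ((2 * k).factorial : ℂ) := by
      funext k
      rw [mul_pow]
      ring
    show HasSum (fun k : ℕ => (t : ℂ) ^ (2 * k) * ((-1) ^ k * ζ ^ (2 * k) / ((2 * k).factorial : ℂ))) _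
    rw [e3]
    exact h1

theorem Rep_lower {K : ℝ} (hK : K ^ 2 < 2) (ζ : ℂ) (hζ : 0 < ζ.im) :
    ∃ c : ℝ, 0 < c ∧ ∀ b, Rep K b →
      c ≤ ‖∑' k : ℕ, ((b (2 * k) : ℝ) : ℂ) * (-1) ^ k * ζ ^ (2 * k) / ((2 * k).factorial : ℂ)‖ := by
  obtain ⟨M0, hM0⟩ := (isCompact_Icc (a := (0:ℝ)) (b := 1)).exists_bound_of_continuousOn
    (cont_sin ζ).continuousOn
  set M := |M0| with hM
  have hMb : ∀ t ∈ Set.Icc (0:ℝ) 1, ‖Complex.sin (t * ζ)‖ ≤ M := fun t ht => (hM0 t ht).trans (le_abs_self _)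
  have hM_nn : 0 ≤ M := abs_nonneg _
  set Q := Real.sinh (2 * ζ.im) / 2 with hQ
  have hQpos : 0 < Q := by
    have : 0 < Real.sinh (2 * ζ.im) := Real.sinh_pos_iff.2 (by linarith)
    positivity
  refine ⟨Q * (2 - K ^ 2) / (M * |K| + 1), by
    have : 0 < 2 - K ^ 2 := by linarith
    positivity, ?_⟩
  rintro b ⟨μ, ν, hfμ, hfν, hμ, hν, hmass, hb⟩
  set m := μ.real Set.univ with hm
  set n := ν.real Set.univ with hn
  have hm0 : 0 ≤ m := measureReal_nonneg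
  have hn0 : 0 ≤ n := measureReal_nonneg
  set Cμ := ∫ t, Complex.cos (t * ζ) ∂μ with hCμ
  set Cν := ∫ t, Complex.cos (t * ζ) ∂ν with hCν
  set Sμ := ∫ t, Complex.sin (t * ζ) ∂μ with hSμ
  set Sν := ∫ t, Complex.sin (t * ζ) ∂ν with hSν
  have hΦ : ∑' k : ℕ, ((b (2 * k) : ℝ) : ℂ) * (-1) ^ k * ζ ^ (2 * k) / ((2 * k).factorial : ℂ) =
      Complex.cos ζ + Cμ - Cν := by
    have h1 := ((Complex.hasSum_cos ζ).add (hasSum_int ζ μ hμ)).sub (hasSum_int ζ ν hν)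
    rw [← h1.tsum_eq]
    apply tsum_congr
    intro k
    rw [hb]
    push_cast
    ring
  rw [hΦ]
  set Φ := Complex.cos ζ + Cμ - Cν with hΦd
  set Ψ := Complex.sin ζ + Sμ - Sν with hΨd
  -- dirac pairings
  have hd : (Measure.dirac (1:ℝ)) (Set.Icc (0:ℝ) 1)ᶜ = 0 := by
    rw [Measure.dirac_apply' _ (measurableSet_Icc.compl)]
    simp
  have hd1 : (Measure.dirac (1:ℝ)).real Set.univ = 1 := by simp
  have hdc : ∫ t, Complex.cos (t * ζ) ∂(Measure.dirac (1:ℝ)) = Complex.cos ζ := by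
    rw [integral_dirac]; simp
  have hds : ∫ t, Complex.sin (t * ζ) ∂(Measure.dirac (1:ℝ)) = Complex.sin ζ := by
    rw [integral_dirac]; simp
  have p1μ := pair_bound ζ hζ (Measure.dirac (1:ℝ)) μ hd hμ
  have p1ν := pair_bound ζ hζ (Measure.dirac (1:ℝ)) ν hd hν
  have pμ1 := pair_bound ζ hζ μ (Measure.dirac (1:ℝ)) hμ hd
  have pν1 := pair_bound ζ hζ ν (Measure.dirac (1:ℝ)) hν hd
  have pμμ := pair_bound ζ hζ μ μ hμ hμ
  have pμν := pair_bound ζ hζ μ ν hμ hν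
  have pνμ := pair_bound ζ hζ ν μ hν hμ
  have pνν := pair_bound ζ hζ ν ν hν hν
  rw [hds, hd1] at p1μ p1ν
  rw [hdc, hd1] at pμ1 pν1
  rw [← hQ, ← hCμ, ← hm] at p1μ
  rw [← hQ, ← hCν, ← hn] at p1ν
  rw [← hQ, ← hSμ, ← hm] at pμ1
  rw [← hQ, ← hSν, ← hn] at pν1
  rw [← hQ, ← hSμ, ← hCμ, ← hm] at pμμ
  rw [← hQ, ← hSμ, ← hCν, ← hm, ← hn] at pμν
  rw [← hQ, ← hSν, ← hCμ, ← hm, ← hn] at pνμ
  rw [← hQ, ← hSν, ← hCν, ← hn] at pνν
  have q1 := q_one ζ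
  rw [← hQ] at q1
  have hexp : (Ψ * (starRingEnd ℂ) Φ).im =
      (Complex.sin ζ * (starRingEnd ℂ) (Complex.cos ζ)).im + (Complex.sin ζ * (starRingEnd ℂ) Cμ).im
      - (Complex.sin ζ * (starRingEnd ℂ) Cν).im + (Sμ * (starRingEnd ℂ) (Complex.cos ζ)).im
      + (Sμ * (starRingEnd ℂ) Cμ).im - (Sμ * (starRingEnd ℂ) Cν).im
      - (Sν * (starRingEnd ℂ) (Complex.cos ζ)).im - (Sν * (starRingEnd ℂ) Cμ).im
      + (Sν * (starRingEnd ℂ) Cν).im := by
    rw [hΨd, hΦd]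
    simp only [map_add, map_sub, ← Complex.add_im, ← Complex.sub_im]
    congr 1
    ring
  have hlow : Q * (2 - K ^ 2) ≤ (Ψ * (starRingEnd ℂ) Φ).im := by
    rw [hexp, q1]
    have a1 := (abs_le.1 p1μ).1
    have a2 := (abs_le.1 p1ν).2
    have a3 := (abs_le.1 pμ1).1
    have a4 := (abs_le.1 pν1).2
    have a5 := (abs_le.1 pμμ).1
    have a6 := (abs_le.1 pμν).2
    have a7 := (abs_le.1 pνμ).2
    have a8 := (abs_le.1 pνν).1
    have h1 : (1 + m + n) ^ 2 ≤ K ^ 2 := by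
      apply pow_le_pow_left₀ (by positivity)
      linarith
    have h2 : Q * (2 - K ^ 2) ≤ Q * (2 - (1 + m + n) ^ 2) := by
      apply mul_le_mul_of_nonneg_left _ hQpos.le
      linarith
    nlinarith
  have hΨ : ‖Ψ‖ ≤ M * |K| := by
    have s1 : ‖Complex.sin ζ‖ ≤ M := by
      have := hMb 1 (by simp)
      simpa using this
    have s2 : ‖Sμ‖ ≤ M * m := by
      apply norm_integral_le_of_norm_le_const
      filter_upwards [ae_Icc μ hμ] with t ht using hMb t ht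
    have s3 : ‖Sν‖ ≤ M * n := by
      apply norm_integral_le_of_norm_le_const
      filter_upwards [ae_Icc ν hν] with t ht using hMb t ht
    have s4 : ‖Ψ‖ ≤ ‖Complex.sin ζ‖ + ‖Sμ‖ + ‖Sν‖ := by
      rw [hΨd]
      exact (norm_sub_le _ _).trans (by gcongr; exact norm_add_le _ _)
    calc ‖Ψ‖ ≤ M + M * m + M * n := by linarith
      _ = M * (1 + m + n) := by ring
      _ ≤ M * |K| := by
        apply mul_le_mul_of_nonneg_left _ hM_nn
        exact hmass.trans (le_abs_self K)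
  rw [div_le_iff₀ (by positivity)]
  calc Q * (2 - K ^ 2) ≤ (Ψ * (starRingEnd ℂ) Φ).im := hlow
    _ ≤ ‖Ψ * (starRingEnd ℂ) Φ‖ := (le_abs_self _).trans (Complex.abs_im_le_norm _)
    _ = ‖Ψ‖ * ‖Φ‖ := by rw [norm_mul, RCLike.norm_conj]
    _ ≤ (M * |K| + 1) * ‖Φ‖ := by
      apply mul_le_mul_of_nonneg_right _ (norm_nonneg _)
      linarith
    _ = ‖Φ‖ * (M * |K| + 1) := by ring

end Pool.Agent.H11W
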