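import Mathlib

set_option autoImplicit false

namespace Pool.Agent.H11W
open MeasureTheory Filter Topology

theorem cos_int {μ : Measure ℝ} [IsFiniteMeasure μ] (hμ : μ (Set.Icc 0 1)ᶜ = 0) (ζ : ℂ) :
    HasSum (fun k : ℕ => ((∫ t, t ^ (2 * k) ∂μ : ℝ) : ℂ) * (-1) ^ k * ζ ^ (2 * k) /
      ((2 * k).factorial : ℂ)) (∫ t : ℝ, Complex.cos (t * ζ) ∂μ) := by
  have hae : ∀ᵐ t ∂μ, t ∈ Set.Icc (0 : ℝ) 1 := by
    rw [ae_iff]
    exact hμ
  have hF : ∀ k : ℕ, (∫ t : ℝ, ((t : ℂ) * ζ) ^ (2 * k) * (-1) ^ k / ((2 * k).factorial : ℂ) ∂μ)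
      = ((∫ t, t ^ (2 * k) ∂μ : ℝ) : ℂ) * (-1) ^ k * ζ ^ (2 * k) / ((2 * k).factorial : ℂ) := by
    intro k
    have h1 : ∀ t : ℝ, ((t : ℂ) * ζ) ^ (2 * k) * (-1) ^ k / ((2 * k).factorial : ℂ)
        = ((t ^ (2 * k) : ℝ) : ℂ) * ((-1) ^ k * ζ ^ (2 * k) / ((2 * k).factorial : ℂ)) := by
      intro t
      push_cast
      rw [mul_pow]
      ring
    simp_rw [h1]
    rw [integral_mul_const, integral_complex_ofReal]
    ring
  have h2 := hasSum_integral_of_summable_integral_norm (μ := μ)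
    (F := fun (k : ℕ) (t : ℝ) => ((t : ℂ) * ζ) ^ (2 * k) * (-1) ^ k / ((2 * k).factorial : ℂ))
    ?_ ?_
  · simp_rw [hF] at h2
    have h6 : ∀ t : ℝ, (∑' i : ℕ, ((t : ℂ) * ζ) ^ (2 * i) * (-1) ^ i / ((2 * i).factorial : ℂ))
        = Complex.cos (t * ζ) := by
      intro t
      have h3 := Complex.hasSum_cos ((t : ℂ) * ζ)
      rw [← h3.tsum_eq]
      apply tsum_congr
      intro k
      ring
    simp_rw [h6] at h2
    exact h2
  · intro k
    apply Integrable.mono' (g := fun _ => ‖ζ‖ ^ (2 * k) / ((2 * k).factorial : ℝ)) (integrable_const _)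
    · apply Continuous.aestronglyMeasurable
      fun_prop
    · filter_upwards [hae] with t ht
      rw [norm_div, norm_mul, norm_pow, norm_mul, norm_pow, norm_neg, norm_one, one_pow, mul_one,
        Complex.norm_natCast, Complex.norm_real, Real.norm_of_nonneg ht.1]
      gcongr
      · exact mul_nonneg ht.1 (norm_nonneg _)
      · exact mul_le_of_le_one_left (norm_nonneg _) ht.2
  · have h4 : Summable (fun k : ℕ => μ.real Set.univ * (‖ζ‖ ^ (2 * k) / ((2 * k).factorial : ℝ))) := by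
      apply Summable.mul_left
      have := Real.summable_pow_div_factorial ‖ζ‖
      exact this.comp_injective (fun a b hab => by simpa using hab)
    apply Summable.of_nonneg_of_le _ _ h4
    · intro k
      exact integral_nonneg (fun t => norm_nonneg _)
    · intro k
      have h5 : ∫ t : ℝ, ‖((t : ℂ) * ζ) ^ (2 * k) * (-1) ^ k / ((2 * k).factorial : ℂ)‖ ∂μ
          ≤ ∫ t : ℝ, ‖ζ‖ ^ (2 * k) / ((2 * k).factorial : ℝ) ∂μ := by
        apply integral_mono_of_nonneg
        · exact Eventually.of_forall (fun t => norm_nonneg _)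
        · exact integrable_const _
        · filter_upwards [hae] with t ht
          rw [norm_div, norm_mul, norm_pow, norm_mul, norm_pow, norm_neg, norm_one, one_pow, mul_one,
            Complex.norm_natCast, Complex.norm_real, Real.norm_of_nonneg ht.1]
          gcongr
          · exact mul_nonneg ht.1 (norm_nonneg _)
          · exact mul_le_of_le_one_left (norm_nonneg _) ht.2
      refine h5.trans (le_of_eq ?_)
      rw [integral_const, smul_eq_mul]

theorem cos_series {μ ν : Measure ℝ} [IsFiniteMeasure μ] [IsFiniteMeasure ν]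
    (hμ : μ (Set.Icc 0 1)ᶜ = 0) (hν : ν (Set.Icc 0 1)ᶜ = 0) (b : ℕ → ℝ)
    (hb : ∀ n, b n = 1 + (∫ t, t ^ n ∂μ) - ∫ t, t ^ n ∂ν) (ζ : ℂ) :
    ∑' k : ℕ, ((b (2 * k) : ℝ) : ℂ) * (-1) ^ k * ζ ^ (2 * k) / ((2 * k).factorial : ℂ)
      = Complex.cos ζ + (∫ t : ℝ, Complex.cos (t * ζ) ∂μ) - ∫ t : ℝ, Complex.cos (t * ζ) ∂ν := by
  have h1 := Complex.hasSum_cos ζ
  have h2 := cos_int hμ ζ
  have h3 := cos_int hν ζ
  have h4 := (h1.add h2).sub h3
  rw [← h4.tsum_eq]
  apply tsum_congr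
  intro k
  rw [hb]
  push_cast
  ring

end Pool.Agent.H11W
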