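import Mathlib
import Pool.Agent.H11W.Defs

set_option autoImplicit false

namespace Pool.Agent.H11W

open Finset

namespace PR

theorem pair_even (g : ℕ → ℝ) (h : ℕ) :
    ∏ j ∈ range (2 * h), g j = ∏ j ∈ range h, (g j * g (h + (h - 1 - j))) := by
  rw [two_mul, prod_range_add, ← prod_range_reflect (fun j => g (h + j)) h, ← prod_mul_distrib]

theorem pair_odd (g : ℕ → ℝ) (h : ℕ) :
    ∏ j ∈ range (2 * h + 1), g j = g h * ∏ j ∈ range h, (g j * g (h + 1 + (h - 1 - j))) := by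
  rw [show 2 * h + 1 = (h + 1) + h by ring, prod_range_add, prod_range_succ,
    ← prod_range_reflect (fun j => g (h + 1 + j)) h, prod_mul_distrib]
  ring

theorem fact_mul (N k : ℕ) (hN : 0 < N) :
    ((N * (k + 1)).factorial : ℝ) = ((N * k).factorial : ℝ) *
      ((N : ℝ) ^ N * ∏ j ∈ range N, ((k : ℝ) + ((j : ℝ) + 1) / N)) := by
  have hN' : (N : ℝ) ≠ 0 := by exact_mod_cast hN.ne'
  have h1 : N * (k + 1) = N * k + N := by ring
  rw [h1, ← Nat.factorial_mul_ascFactorial, Nat.ascFactorial_eq_prod_range]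
  push_cast
  congr 1
  have h2 : (N : ℝ) ^ N = ∏ _j ∈ range N, (N : ℝ) := by simp
  rw [h2, ← prod_mul_distrib]
  refine prod_congr rfl fun j _ => ?_
  field_simp
  ring

noncomputable def P (x : ℝ) (N h : ℕ) : ℝ :=
  ∏ j ∈ range h, ((x + ((j : ℝ) + 1) / N) * (x + 1 - ((j : ℝ) + 1) / N))

theorem P_pos (x : ℝ) (hx : 0 ≤ x) (N h : ℕ) (hN : 2 * h ≤ N) : 0 < P x N h := by
  unfold P
  refine prod_pos fun j hj => ?_
  rw [mem_range] at hj
  have hN0 : (0 : ℝ) < N := by exact_mod_cast (by omega : 0 < N)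
  have h1 : (0 : ℝ) < ((j : ℝ) + 1) / N := by positivity
  have h2 : ((j : ℝ) + 1) / N < 1 := by
    rw [div_lt_one hN0]
    exact_mod_cast (by omega : j + 1 < N)
  apply mul_pos <;> linarith

theorem full_even (x : ℝ) (N h : ℕ) (hN : N = 2 * h + 1) :
    ∏ j ∈ range N, (x + ((j : ℝ) + 1) / N) = P x N h * (x + 1) := by
  have hN0 : (N : ℝ) ≠ 0 := by
    rw [hN]; positivity
  have hNr : (N : ℝ) = 2 * h + 1 := by rw [hN]; push_cast; ring
  conv_lhs => rw [show range N = range (2 * h + 1) by rw [hN]]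
  rw [prod_range_succ, pair_even]
  congr 1
  · unfold P
    refine prod_congr rfl fun j hj => ?_
    rw [mem_range] at hj
    congr 1
    have : ((h + (h - 1 - j) : ℕ) : ℝ) = 2 * h - 1 - j := by
      rw [show h + (h - 1 - j) = 2 * h - 1 - j by omega, Nat.cast_sub (by omega),
        Nat.cast_sub (by omega)]
      push_cast; ring
    rw [this]
    field_simp
    rw [hNr]; ring
  · push_cast
    rw [← hNr, div_self hN0]

theorem full_odd (x : ℝ) (N h : ℕ) (hN : N = 2 * h + 2) :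
    ∏ j ∈ range N, (x + ((j : ℝ) + 1) / N) = (x + 1 / 2) * P x N h * (x + 1) := by
  have hN0 : (N : ℝ) ≠ 0 := by
    rw [hN]; positivity
  have hNr : (N : ℝ) = 2 * h + 2 := by rw [hN]; push_cast; ring
  conv_lhs => rw [show range N = range (2 * h + 1 + 1) by rw [hN]]
  rw [prod_range_succ, pair_odd]
  congr 1
  · congr 1
    · congr 1
      rw [hNr]
      have : (h : ℝ) + 1 ≠ 0 := by positivity
      field_simp
    · unfold P
      refine prod_congr rfl fun j hj => ?_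
      rw [mem_range] at hj
      congr 1
      have : ((h + 1 + (h - 1 - j) : ℕ) : ℝ) = 2 * h - j := by
        rw [show h + 1 + (h - 1 - j) = 2 * h - j by omega, Nat.cast_sub (by omega)]
        push_cast; ring
      rw [this]
      field_simp
      rw [hNr]; ring
  · push_cast
    have h2 : (2 * (h : ℝ) + 1 + 1) = N := by rw [hNr]; ring
    rw [h2, div_self hN0]

theorem key (x : ℝ) (m : ℕ) (hm : 2 ≤ m) :
    (∏ j ∈ range m, (x + ((j : ℝ) + 1) / m)) * (x + 1 / 2) * P x (m + 1) (m / 2) =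
      (∏ j ∈ range (m + 1), (x + ((j : ℝ) + 1) / ((m + 1 : ℕ) : ℝ))) * P x m (m / 2) := by
  rcases Nat.even_or_odd' m with ⟨h, hh | hh⟩
  · obtain ⟨h', rfl⟩ : ∃ h', h = h' + 1 := ⟨h - 1, by omega⟩
    have e1 : m / 2 = h' + 1 := by omega
    rw [e1, full_odd x m h' (by omega), full_even x (m + 1) (h' + 1) (by omega)]
    have e2 : P x m (h' + 1) = P x m h' * ((x + 1 / 2) * (x + 1 / 2)) := by
      unfold P
      rw [prod_range_succ]
      congr 1
      have hr : (m : ℝ) = 2 * (h' + 1) := by rw [hh]; push_cast; ring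
      have hp : (h' : ℝ) + 1 ≠ 0 := by positivity
      rw [hr]
      congr 1 <;> field_simp <;> ring
    rw [e2]
    ring
  · have e1 : m / 2 = h := by omega
    rw [e1, full_even x m h hh, full_odd x (m + 1) h (by omega)]
    ring

end PR

open PR in
/-- PART R -/
theorem a_ratio {m : ℕ} (hm : 2 ≤ m) (k : ℕ) : aseq m k = aseq m (k + 1) *
    ∏ j ∈ Finset.Icc 1 (m / 2), ((((k : ℝ) + (j : ℝ) / (m + 1)) * ((k : ℝ) + 1 - (j : ℝ) / (m + 1))) /
      (((k : ℝ) + (j : ℝ) / m) * ((k : ℝ) + 1 - (j : ℝ) / m))) := by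
  have hprod : ∏ j ∈ Finset.Icc 1 (m / 2), ((((k : ℝ) + (j : ℝ) / (m + 1)) *
      ((k : ℝ) + 1 - (j : ℝ) / (m + 1))) / (((k : ℝ) + (j : ℝ) / m) * ((k : ℝ) + 1 - (j : ℝ) / m))) =
      P k (m + 1) (m / 2) / P k m (m / 2) := by
    have hI : Finset.Icc 1 (m / 2) = Finset.Ico 1 (m / 2 + 1) := by
      ext j; simp only [Finset.mem_Icc, Finset.mem_Ico]; omega
    rw [hI, Finset.prod_Ico_eq_prod_range]
    unfold P
    rw [← Finset.prod_div_distrib]
    simp only [Nat.add_sub_cancel]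
    refine Finset.prod_congr rfl fun j _ => ?_
    push_cast
    rw [add_comm (1 : ℝ) (j : ℝ)]
  rw [hprod]
  have hP1 := P_pos (k : ℝ) (Nat.cast_nonneg k) (m + 1) (m / 2) (by omega)
  have hP2 := P_pos (k : ℝ) (Nat.cast_nonneg k) m (m / 2) (by omega)
  have hkey := key (k : ℝ) m hm
  set A : ℝ := ∏ j ∈ range m, ((k : ℝ) + ((j : ℝ) + 1) / m) with hA
  set B : ℝ := ∏ j ∈ range (m + 1), ((k : ℝ) + ((j : ℝ) + 1) / ((m + 1 : ℕ) : ℝ)) with hB
  have hB0 : 0 < B := by
    rw [hB]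
    refine Finset.prod_pos fun j _ => ?_
    positivity
  have f1 := fact_mul m k (by omega)
  have f2 := fact_mul (m + 1) k (by omega)
  rw [← hA] at f1
  rw [← hB] at f2
  have f3 : ((2 * (k + 1)).factorial : ℝ) = ((2 * k).factorial : ℝ) *
      (4 * ((k : ℝ) + 1 / 2) * (k + 1)) := by
    have e : 2 * (k + 1) = 2 * k + 1 + 1 := by ring
    rw [e, Nat.factorial_succ, Nat.factorial_succ]
    push_cast
    ring
  have f4 : ((k + 1).factorial : ℝ) = (k + 1) * (k.factorial : ℝ) := by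
    rw [Nat.factorial_succ]; push_cast; ring
  unfold aseq
  rw [f1, f2, f3, f4, pow_succ (((m : ℝ) + 1) ^ (m + 1) / (4 * (m : ℝ) ^ m)) k]
  have g1 : (0 : ℝ) < ((m * k).factorial : ℝ) := by positivity
  have g2 : (0 : ℝ) < (((m + 1) * k).factorial : ℝ) := by positivity
  have g3 : (0 : ℝ) < ((2 * k).factorial : ℝ) := by positivity
  have g4 : (0 : ℝ) < (k.factorial : ℝ) := by positivity
  have hm0 : (0 : ℝ) < (m : ℝ) := by exact_mod_cast (by omega : 0 < m)
  have g5 : (0 : ℝ) < (m : ℝ) ^ m := by positivity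
  have g6 : (0 : ℝ) < ((m : ℝ) + 1) ^ (m + 1) := by positivity
  have g7 : (0 : ℝ) < (k : ℝ) + 1 := by positivity
  push_cast
  set Q : ℝ := (((m : ℝ) + 1) ^ (m + 1) / (4 * (m : ℝ) ^ m)) ^ k with hQ
  set M1 : ℝ := (m : ℝ) ^ m with hM1
  set M2 : ℝ := ((m : ℝ) + 1) ^ (m + 1) with hM2
  set a1 : ℝ := ((m * k).factorial : ℝ) with ha1
  set a2 : ℝ := (((m + 1) * k).factorial : ℝ) with ha2
  set a3 : ℝ := ((2 * k).factorial : ℝ) with ha3
  set a4 : ℝ := (k.factorial : ℝ) with ha4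
  set P1 : ℝ := P (k : ℝ) (m + 1) (m / 2) with hP1d
  set P2 : ℝ := P (k : ℝ) m (m / 2) with hP2d
  have hfin : a1 * (M1 * A) * (a3 * (4 * ((k : ℝ) + 1 / 2) * (k + 1))) / (a2 * (M2 * B) * ((k + 1) * a4)) *
      (Q * (M2 / (4 * M1))) * (P1 / P2) =
      (a1 * a3 / (a2 * a4) * Q) * ((A * ((k : ℝ) + 1 / 2) * P1) / (B * P2)) := by
    field_simp
  rw [hfin, hkey, div_self (mul_pos hB0 hP2).ne', mul_one]

end Pool.Agent.H11W
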