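import Pool.Agent.H11W.Defs

set_option autoImplicit false

namespace Pool.Agent.H11W

open Filter Topology Real

namespace S

noncomputable def s (n : ℕ) : ℝ := √(2 * n * π) * (n / Real.exp 1) ^ n

lemma s_pos {n : ℕ} (hn : 0 < n) : 0 < s n := by
  have : (0 : ℝ) < n := by exact_mod_cast hn
  unfold s
  have h2 := Real.exp_pos 1
  positivity

lemma r_lim : Tendsto (fun n : ℕ => (n.factorial : ℝ) / s n) atTop (𝓝 1) := by
  have h := Stirling.factorial_isEquivalent_stirling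
  rw [Asymptotics.isEquivalent_iff_tendsto_one] at h
  · exact h
  · filter_upwards [eventually_gt_atTop 0] with n hn
    exact (s_pos hn).ne'

lemma r_lim' (a : ℕ) (ha : 0 < a) :
    Tendsto (fun k : ℕ => ((a * k).factorial : ℝ) / s (a * k)) atTop (𝓝 1) := by
  have h1 : Tendsto (fun k : ℕ => a * k) atTop atTop :=
    tendsto_atTop_mono (fun k => Nat.le_mul_of_pos_left k ha) tendsto_id
  exact r_lim.comp h1

lemma key {m : ℕ} (hm : 0 < m) {k : ℕ} (hk : 0 < k) :
    s (m * k) * s (2 * k) * (((m : ℝ) + 1) ^ (m + 1) / (4 * (m : ℝ) ^ m)) ^ k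
      = √(2 * m / (m + 1)) * (s ((m + 1) * k) * s k) := by
  have hm' : (0 : ℝ) < m := by exact_mod_cast hm
  have hk' : (0 : ℝ) < k := by exact_mod_cast hk
  have he := Real.exp_pos 1
  have hpi := Real.pi_pos
  have h1 : √(2 * (m * k : ℝ) * π) * √(2 * (2 * k : ℝ) * π)
      = √(2 * m / (m + 1)) * (√(2 * ((m + 1) * k : ℝ) * π) * √(2 * (k : ℝ) * π)) := by
    rw [← Real.sqrt_mul (by positivity), ← Real.sqrt_mul (by positivity),
      ← Real.sqrt_mul (by positivity)]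
    congr 1
    field_simp
  have h2 : (m * k / Real.exp 1 : ℝ) ^ (m * k) * (2 * k / Real.exp 1 : ℝ) ^ (2 * k) *
      (((m : ℝ) + 1) ^ (m + 1) / (4 * (m : ℝ) ^ m)) ^ k
      = ((m + 1) * k / Real.exp 1 : ℝ) ^ ((m + 1) * k) * (k / Real.exp 1 : ℝ) ^ k := by
    rw [pow_mul, pow_mul, pow_mul, ← mul_pow, ← mul_pow, ← mul_pow]
    congr 1
    have hx : (m * k / Real.exp 1 : ℝ) = m * (k / Real.exp 1) := by ring
    have hy : (2 * k / Real.exp 1 : ℝ) = 2 * (k / Real.exp 1) := by ring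
    have hz : ((m + 1) * k / Real.exp 1 : ℝ) = (m + 1) * (k / Real.exp 1) := by ring
    rw [hx, hy, hz, mul_pow, mul_pow, mul_pow]
    generalize (k / Real.exp 1 : ℝ) = x
    have hmm : (m : ℝ) ^ m ≠ 0 := by positivity
    field_simp
    ring
  unfold s
  push_cast
  calc √(2 * (m * k : ℝ) * π) * (m * k / Real.exp 1 : ℝ) ^ (m * k) *
        (√(2 * (2 * k : ℝ) * π) * (2 * k / Real.exp 1 : ℝ) ^ (2 * k)) *
        (((m : ℝ) + 1) ^ (m + 1) / (4 * (m : ℝ) ^ m)) ^ k
      = (√(2 * (m * k : ℝ) * π) * √(2 * (2 * k : ℝ) * π)) *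
        ((m * k / Real.exp 1 : ℝ) ^ (m * k) * (2 * k / Real.exp 1 : ℝ) ^ (2 * k) *
        (((m : ℝ) + 1) ^ (m + 1) / (4 * (m : ℝ) ^ m)) ^ k) := by ring
    _ = _ := by rw [h1, h2]; ring

lemma aseq_eq {m : ℕ} (hm : 0 < m) {k : ℕ} (hk : 0 < k) :
    aseq m k = (((m * k).factorial : ℝ) / s (m * k)) * (((2 * k).factorial : ℝ) / s (2 * k)) /
      (((((m + 1) * k).factorial : ℝ) / s ((m + 1) * k)) * ((k.factorial : ℝ) / s k)) *
      √(2 * m / (m + 1)) := by
  have h := key hm hk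
  have h1 := (s_pos (Nat.mul_pos hm hk)).ne'
  have h2 := (s_pos (Nat.mul_pos two_pos hk)).ne'
  have h3 := (s_pos (Nat.mul_pos (Nat.succ_pos m) hk)).ne'
  have h4 := (s_pos hk).ne'
  have f3 : (((m + 1) * k).factorial : ℝ) ≠ 0 := by positivity
  have f4 : (k.factorial : ℝ) ≠ 0 := by positivity
  unfold aseq
  generalize (((m : ℝ) + 1) ^ (m + 1) / (4 * (m : ℝ) ^ m)) ^ k = c at h ⊢
  have h3' : s ((m + 1) * k) ≠ 0 := h3
  generalize s (m * k) = s1 at *
  generalize s (2 * k) = s2 at *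
  generalize s ((m + 1) * k) = s3 at *
  generalize s k = s4 at *
  generalize √(2 * m / (m + 1)) = w at *
  generalize (((m + 1) * k).factorial : ℝ) = g3 at *
  generalize (k.factorial : ℝ) = g4 at *
  generalize ((m * k).factorial : ℝ) = g1 at *
  generalize ((2 * k).factorial : ℝ) = g2 at *
  field_simp
  linear_combination (g1 * g2) * h

end S

open S in
theorem a_lim {m : ℕ} (hm : 2 ≤ m) : Tendsto (aseq m) atTop (𝓝 (√(2 * m / (m + 1)))) := by
  have h1 := r_lim' m (by omega)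
  have h2 := r_lim' 2 (by omega)
  have h3 := r_lim' (m + 1) (by omega)
  have h4 := r_lim
  have h5 := ((h1.mul h2).div (h3.mul h4) (by norm_num)).mul_const (√(2 * m / (m + 1)))
  have h6 : (1 * 1 / (1 * 1) * √(2 * (m : ℝ) / (m + 1)) : ℝ) = √(2 * m / (m + 1)) := by ring
  rw [h6] at h5
  refine h5.congr' ?_
  filter_upwards [eventually_gt_atTop 0] with k hk
  exact (aseq_eq (by omega) hk).symm

end Pool.Agent.H11W
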