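import Pool.Agent.H11W.P
import Pool.Agent.H11W.Q
import Pool.Agent.H11W.R
import Pool.Agent.H11W.S

namespace Pool.Agent.H11W
open MeasureTheory Filter Topology

lemma Rep.mono {K K' : ℝ} {b : ℕ → ℝ} (h : Rep K b) (hK : K ≤ K') : Rep K' b := by
  obtain ⟨μ, ν, h1, h2, h3, h4, h5, h6⟩ := h
  exact ⟨μ, ν, h1, h2, h3, h4, h5.trans hK, h6⟩

lemma Rep_prod {ι : Type} [DecidableEq ι] (s : Finset ι) (δ p q : ι → ℝ)
    (hδ : ∀ i ∈ s, 0 ≤ δ i) (hp : ∀ i ∈ s, 0 < p i) (hq : ∀ i ∈ s, 0 < q i) :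
    Rep (∏ i ∈ s, (1 + δ i)) (fun n => ∏ i ∈ s, (1 - δ i * (p i * q i / ((n + p i) * (n + q i))))) := by
  induction s using Finset.induction_on with
  | empty => simpa using Rep_one
  | insert a s ha ih =>
    have h := Rep_step (ih (fun i hi => hδ i (Finset.mem_insert_of_mem hi))
      (fun i hi => hp i (Finset.mem_insert_of_mem hi)) (fun i hi => hq i (Finset.mem_insert_of_mem hi)))
      (hδ a (Finset.mem_insert_self _ _)) (hp a (Finset.mem_insert_self _ _)) (hq a (Finset.mem_insert_self _ _))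
    have e1 : ∏ i ∈ insert a s, (1 + δ i) = (∏ i ∈ s, (1 + δ i)) * (1 + δ a) := by
      rw [Finset.prod_insert ha, mul_comm]
    have e2 : (fun n : ℕ => ∏ i ∈ insert a s, (1 - δ i * (p i * q i / ((n + p i) * (n + q i))))) =
        (fun n : ℕ => (∏ i ∈ s, (1 - δ i * (p i * q i / ((n + p i) * (n + q i))))) *
          (1 - δ a * (p a * q a / ((n + p a) * (n + q a))))) := by
      funext n
      rw [Finset.prod_insert ha, mul_comm]
    rw [e1, e2]
    exact h

variable {m : ℕ}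

noncomputable def al (m j : ℕ) : ℝ := (j : ℝ) / (m + 1)
noncomputable def be (m j : ℕ) : ℝ := (j : ℝ) / m
noncomputable def rr (m j : ℕ) (x : ℝ) : ℝ := ((x + al m j) * (x + 1 - al m j)) / ((x + be m j) * (x + 1 - be m j))
noncomputable def de (m i j : ℕ) : ℝ := 1 - rr m j i

lemma facts (hm : 2 ≤ m) {j : ℕ} (hj : j ∈ Finset.Icc 1 (m/2)) :
    0 < al m j ∧ al m j ≤ be m j ∧ be m j ≤ 1/2 := by
  rw [Finset.mem_Icc] at hj
  have hj1 : (1:ℝ) ≤ j := by exact_mod_cast hj.1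
  have hm2 : (2:ℝ) ≤ m := by exact_mod_cast hm
  have hjm : 2 * (j:ℝ) ≤ m := by
    have : 2 * j ≤ m := by omega
    exact_mod_cast this
  refine ⟨by unfold al; positivity, ?_, ?_⟩
  · unfold al be
    apply div_le_div_of_nonneg_left (by positivity) (by positivity) (by linarith)
  · unfold be
    rw [div_le_iff₀ (by positivity)]; linarith

lemma rr_pos (hm : 2 ≤ m) {j : ℕ} (hj : j ∈ Finset.Icc 1 (m/2)) {x : ℝ} (hx : 0 ≤ x) : 0 < rr m j x := by
  obtain ⟨h1, h2, h3⟩ := facts hm hj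
  unfold rr
  apply div_pos
  · apply mul_pos <;> linarith
  · apply mul_pos <;> linarith

lemma rr_le (hm : 2 ≤ m) {j : ℕ} (hj : j ∈ Finset.Icc 1 (m/2)) {x : ℝ} (hx : 0 ≤ x) : rr m j x ≤ 1 := by
  obtain ⟨h1, h2, h3⟩ := facts hm hj
  unfold rr
  rw [div_le_one (by apply mul_pos <;> linarith)]
  nlinarith

lemma fac (hm : 2 ≤ m) {j : ℕ} (hj : j ∈ Finset.Icc 1 (m/2)) (i k : ℕ) :
    1 - de m i j * ((2*(i + be m j)) * (2*(i + 1 - be m j)) /
      ((((2*k : ℕ):ℝ) + 2*(i + be m j)) * (((2*k:ℕ):ℝ) + 2*(i + 1 - be m j)))) = rr m j ((k + i : ℕ) : ℝ) := by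
  obtain ⟨h1, h2, h3⟩ := facts hm hj
  unfold de rr
  have hi : (0:ℝ) ≤ i := by positivity
  have hk : (0:ℝ) ≤ k := by positivity
  have e1 : (i:ℝ) + be m j ≠ 0 := by linarith
  have e2 : (i:ℝ) + 1 - be m j ≠ 0 := by linarith
  have e3 : (k:ℝ) + i + be m j ≠ 0 := by linarith
  have e4 : (k:ℝ) + i + 1 - be m j ≠ 0 := by linarith
  have e5 : (2*(k:ℝ)) + 2*(i + be m j) ≠ 0 := by linarith
  have e6 : (2*(k:ℝ)) + 2*(i + 1 - be m j) ≠ 0 := by linarith
  push_cast
  have e7 : (2*(k:ℝ)) + 2*(i + be m j) = 2 * (k + i + be m j) := by ring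
  have e8 : (2*(k:ℝ)) + 2*(i + 1 - be m j) = 2 * (k + i + 1 - be m j) := by ring
  rw [e7, e8]
  field_simp
  ring

lemma a_ratio' (hm : 2 ≤ m) (k : ℕ) : aseq m k = aseq m (k+1) * ∏ j ∈ Finset.Icc 1 (m/2), rr m j (k:ℝ) := by
  rw [a_ratio hm k]
  rfl

lemma aseq_pos (m k : ℕ) (hm : 2 ≤ m) : 0 < aseq m k := by
  unfold aseq
  have : (0:ℝ) < m := by positivity
  positivity

lemma aseq_zero (m : ℕ) : aseq m 0 = 1 := by simp [aseq]

lemma aseq_mono (hm : 2 ≤ m) : Monotone (aseq m) := by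
  apply monotone_nat_of_le_succ
  intro k
  rw [a_ratio' hm k]
  have h1 : ∏ j ∈ Finset.Icc 1 (m/2), rr m j (k:ℝ) ≤ 1 :=
    Finset.prod_le_one (fun j hj => (rr_pos hm hj (by positivity)).le) (fun j hj => rr_le hm hj (by positivity))
  have := aseq_pos m (k+1) hm
  nlinarith

lemma aseq_le (hm : 2 ≤ m) (k : ℕ) : aseq m k ≤ √(2*m/(m+1)) :=
  (aseq_mono hm).ge_of_tendsto (a_lim hm) k

lemma tele (hm : 2 ≤ m) (k N : ℕ) :
    ∏ i ∈ Finset.range N, ∏ j ∈ Finset.Icc 1 (m/2), rr m j ((k + i : ℕ) : ℝ) = aseq m k / aseq m (k + N) := by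
  induction N with
  | zero => simp [(aseq_pos m k hm).ne']
  | succ N ih =>
    rw [Finset.prod_range_succ, ih]
    have h := a_ratio' hm (k + N)
    have p1 := aseq_pos m (k+N) hm
    have p2 := aseq_pos m (k+N+1) hm
    rw [← add_assoc]
    rw [div_mul_eq_mul_div, div_eq_div_iff p1.ne' p2.ne']
    rw [h]; ring

lemma repN (hm : 2 ≤ m) (N : ℕ) : ∃ b : ℕ → ℝ, Rep (√(2*m/(m+1))) b ∧
    ∀ k, b (2*k) = aseq m k / aseq m (k + N) := by
  set s := (Finset.range N) ×ˢ (Finset.Icc 1 (m/2)) with hs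
  have hR := Rep_prod s (fun x => de m x.1 x.2) (fun x => 2*(x.1 + be m x.2)) (fun x => 2*(x.1 + 1 - be m x.2))
    (by
      intro x hx
      have hj := (Finset.mem_product.mp hx).2
      have := rr_le hm hj (x := (x.1:ℝ)) (by positivity)
      simp only [de]; linarith)
    (by
      intro x hx
      have hj := (Finset.mem_product.mp hx).2
      obtain ⟨h1, h2, h3⟩ := facts hm hj
      have : (0:ℝ) ≤ x.1 := by positivity
      linarith)
    (by
      intro x hx
      have hj := (Finset.mem_product.mp hx).2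
      obtain ⟨h1, h2, h3⟩ := facts hm hj
      have : (0:ℝ) ≤ x.1 := by positivity
      linarith)
  refine ⟨_, hR.mono ?_, ?_⟩
  · have h1 : ∏ x ∈ s, (1 + de m x.1 x.2) ≤ ∏ x ∈ s, (rr m x.2 (x.1:ℝ))⁻¹ := by
      apply Finset.prod_le_prod
      · intro x hx
        have hj := (Finset.mem_product.mp hx).2
        have := rr_le hm hj (x := (x.1:ℝ)) (by positivity)
        simp only [de]; linarith
      · intro x hx
        have hj := (Finset.mem_product.mp hx).2
        have hp := rr_pos hm hj (x := (x.1:ℝ)) (by positivity)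
        simp only [de]
        rw [← one_div, le_div_iff₀ hp]
        nlinarith [sq_nonneg (1 - rr m x.2 (x.1:ℝ))]
    refine h1.trans ?_
    have h2 : ∏ x ∈ s, (rr m x.2 (x.1:ℝ))⁻¹ = aseq m N := by
      rw [hs, Finset.prod_product, Finset.prod_congr rfl (fun i _ => Finset.prod_inv_distrib _)]
      rw [Finset.prod_inv_distrib]
      have h3 := tele hm 0 N
      simp only [zero_add, aseq_zero] at h3
      rw [h3]; simp
    rw [h2]
    exact aseq_le hm N
  · intro k
    rw [← tele hm k N, hs, Finset.prod_product]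
    apply Finset.prod_congr rfl
    intro i _
    apply Finset.prod_congr rfl
    intro j hj
    exact fac hm hj i k

theorem main (hm : 2 ≤ m) (z : ℂ)
    (hz : (∑' k : ℕ, ((Nat.factorial (m * k) : ℂ) /
          ((Nat.factorial ((m + 1) * k) : ℂ) * (Nat.factorial k : ℂ))) * z ^ k) = 0) : z.im = 0 := by
  set w : ℝ := √(2*m/(m+1)) with hw
  have hm2 : (2:ℝ) ≤ m := by exact_mod_cast hm
  have hmpos : (0:ℝ) < m := by linarith
  have hwpos : 0 < w := Real.sqrt_pos.mpr (by positivity)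
  have hw2 : w^2 < 2 := by
    rw [hw, Real.sq_sqrt (by positivity), div_lt_iff₀ (by positivity)]
    linarith
  set R2 : ℝ := (4 * (m:ℝ)^m) / ((m:ℝ)+1)^(m+1) with hR2
  have hR2pos : 0 < R2 := by positivity
  obtain ⟨ζ0, hζ0⟩ := IsAlgClosed.exists_pow_nat_eq (-(R2:ℂ) * z) (n := 2) (by norm_num)
  -- key
  have key : ∀ ζ : ℂ, ζ^2 = -(R2:ℂ) * z → ¬ 0 < ζ.im := by
    intro ζ hζ him
    obtain ⟨c, hc, hlow⟩ := Rep_lower hw2 ζ him
    choose b hb1 hb2 using repN hm
    have hlim : Tendsto (fun N => ∑' k:ℕ, ((b N (2*k):ℝ):ℂ)*(-1)^k*ζ^(2*k)/((2*k).factorial:ℂ)) atTop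
        (𝓝 (∑' k:ℕ, (((aseq m k / w):ℝ):ℂ)*(-1)^k*ζ^(2*k)/((2*k).factorial:ℂ))) := by
      apply tendsto_tsum_of_dominated_convergence (bound := fun k : ℕ => ‖ζ‖^(2*k)/((2*k).factorial:ℝ))
      · have h1 := Real.summable_pow_div_factorial ‖ζ‖
        exact h1.comp_injective (i := fun k : ℕ => 2*k) (fun a b hab => by simpa using hab)
      · intro k
        have h1 : Tendsto (fun N => b N (2*k)) atTop (𝓝 (aseq m k / w)) := by
          simp only [hb2]
          apply Tendsto.div tendsto_const_nhds _ hwpos.ne'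
          have h2 : Tendsto (fun N => aseq m (N + k)) atTop (𝓝 w) :=
            (tendsto_add_atTop_iff_nat (f := aseq m) k).mpr (a_lim hm)
          have h3 : (fun N => aseq m (k+N)) = fun N => aseq m (N+k) := by
            funext N; rw [add_comm]
          rw [h3]; exact h2
        have h2 : Tendsto (fun N => ((b N (2*k):ℝ):ℂ)) atTop (𝓝 (((aseq m k / w):ℝ):ℂ)) :=
          (Complex.continuous_ofReal.tendsto _).comp h1
        exact ((h2.mul_const _).mul_const _).div_const _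
      · refine Filter.Eventually.of_forall (fun N k => ?_)
        have h1 : |b N (2*k)| ≤ 1 := by
          rw [hb2, abs_of_pos (div_pos (aseq_pos m k hm) (aseq_pos m (k+N) hm)), div_le_one (aseq_pos m (k+N) hm)]
          exact aseq_mono hm (by omega)
        rw [norm_div, norm_mul, norm_mul, norm_pow, norm_pow, norm_neg, norm_one, one_pow, mul_one,
          Complex.norm_real, Real.norm_eq_abs, Complex.norm_natCast]
        gcongr
        calc |b N (2*k)| * ‖ζ‖^(2*k) ≤ 1 * ‖ζ‖^(2*k) := by gcongr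
          _ = _ := one_mul _
    have hge : c ≤ ‖∑' k:ℕ, (((aseq m k / w):ℝ):ℂ)*(-1)^k*ζ^(2*k)/((2*k).factorial:ℂ)‖ :=
      ge_of_tendsto hlim.norm (Filter.Eventually.of_forall (fun N => hlow _ (hb1 N)))
    have hzero : ∑' k:ℕ, (((aseq m k / w):ℝ):ℂ)*(-1)^k*ζ^(2*k)/((2*k).factorial:ℂ) = 0 := by
      have : ∀ k : ℕ, (((aseq m k / w):ℝ):ℂ)*(-1)^k*ζ^(2*k)/((2*k).factorial:ℂ) =
          (1/(w:ℂ)) * (((Nat.factorial (m * k) : ℂ) /
          ((Nat.factorial ((m + 1) * k) : ℂ) * (Nat.factorial k : ℂ))) * z ^ k) := by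
        intro k
        have hzk : (-1:ℂ)^k * ζ^(2*k) = (R2:ℂ)^k * z^k := by
          rw [pow_mul, hζ, ← mul_pow, ← mul_pow]; congr 1; ring
        have hRk : (((m : ℝ) + 1) ^ (m + 1) / (4 * (m : ℝ) ^ m)) = R2⁻¹ := by
          rw [hR2, inv_div]
        have hfac : (((2*k).factorial : ℕ) : ℂ) ≠ 0 := by exact_mod_cast (Nat.factorial_ne_zero _)
        have hR2c : (R2:ℂ) ≠ 0 := by exact_mod_cast hR2pos.ne'
        have hwc : (w:ℂ) ≠ 0 := by exact_mod_cast hwpos.ne'
        rw [mul_assoc, hzk]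
        unfold aseq
        rw [hRk]
        push_cast
        have f1 : (((k).factorial : ℕ) : ℂ) ≠ 0 := by exact_mod_cast (Nat.factorial_ne_zero _)
        have f2 : ((((m+1)*k).factorial : ℕ) : ℂ) ≠ 0 := by exact_mod_cast (Nat.factorial_ne_zero _)
        have hRk0 : (R2:ℂ)^k ≠ 0 := pow_ne_zero _ hR2c
        rw [inv_pow]
        field_simp
      rw [tsum_congr this, tsum_mul_left, hz, mul_zero]
    rw [hzero, norm_zero] at hge
    linarith
  have h1 := key ζ0 hζ0
  have h2 := key (-ζ0) (by rw [neg_sq]; exact hζ0)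
  have him : ζ0.im = 0 := by
    simp only [Complex.neg_im] at h2
    push Not at h1 h2
    linarith
  have h3 := congrArg Complex.im hζ0
  rw [pow_two, Complex.mul_im, him] at h3
  simp at h3
  rcases h3 with h3 | h3
  · exact absurd h3 hR2pos.ne'
  · exact h3

end Pool.Agent.H11W
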